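import Mathlib

/-! Integer lemmas for the equation `σ n = k n + 5` with at most three prime factors. -/

namespace Pool.Agent.P.MP_026e5e_nt

theorem two_small (N x y E : ℤ) (hN : 4 ≤ N) (hN' : N < 6) (hx : 1 ≤ x) (hxy : x ≤ y) (hxN : x < N)
    (hE : E = N * (N - 1) - x * y) (hE1 : 1 ≤ E)
    (h : E * (N + x + 1) * (N + y + 1) = x * (N + x + 1) + y * (N + y + 1) + 6) : False := by
  have h1 : y ≤ x * y := by nlinarith
  have h2 : N * (N - 1) ≤ 20 := by nlinarith
  have h3 : y < 20 := by omega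
  subst hE
  interval_cases N <;> interval_cases x <;> interval_cases y <;> omega

theorem two_end (N x y E j : ℤ) (hN : 4 ≤ N) (hx : 1 ≤ x) (hxy : x ≤ y) (hE1 : 1 ≤ E) (hxN : x < N)
    (hE : E = N * (N - 1) - x * y) (h3 : E * (N + y + 1) - x ≤ N * (N - 1) + 5 * E)
    (hj : j = E * (N + 1) + N - 1 - x - y) (h4 : j * (2 * N + x + y) = E ^ 2 + E * (N + 1) + 6)
    (h5 : 1 ≤ j) (hs : N < 6 → False) : False := by
  have h10 : 6 ≤ N := not_lt.1 hs
  have hy : N - 1 ≤ y + E := by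
    have a1 : 0 ≤ (N - 1 - x) * y := mul_nonneg (by omega) (by omega)
    by_contra a2
    have a3 : 0 ≤ (N - 1) * (N - 3 - y) := mul_nonneg (by omega) (by omega)
    nlinarith
  have hEN : E ≤ N := by
    by_contra a1
    have a2 : 0 ≤ (E - N - 1) * (N + y - 4) := mul_nonneg (by omega) (by omega)
    have a3 : 0 ≤ (N + 1) * (y - 1) := mul_nonneg (by omega) (by omega)
    nlinarith
  have h6 : j ≤ 2 := by
    by_contra h6
    have a1 : 0 ≤ (j - 3) * (2 * N + x + y - 3) := mul_nonneg (by omega) (by omega)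
    have a2 : 0 ≤ E * (N - E) := mul_nonneg (by omega) (by omega)
    have a3 : 0 ≤ E * N := mul_nonneg (by omega) (by omega)
    nlinarith
  have h7 : E * (E * (N + 1) + N - 1) - N < N * (N - 1) + 5 * E := by
    have a1 : 0 ≤ E * (N + y + 1 - (E * (N + 1) + N - 1)) := mul_nonneg (by omega) (by linarith)
    linarith
  have h8 : 3 * N - 8 ≤ E ^ 2 := by
    have a1 : j = 1 ∨ j = 2 := by omega
    have a3 : 0 ≤ E * N := mul_nonneg (by omega) (by omega)
    rcases a1 with rfl | rfl <;> linarith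
  have h9 := mul_le_mul_of_nonneg_right h8 (by omega : 0 ≤ N + 1)
  have a1 : 0 ≤ E * (N - 6) := mul_nonneg (by omega) (by omega)
  have a2 : 0 ≤ N * (N - 6) := mul_nonneg (by omega) (by omega)
  linarith

/-- Both odd primes squared. -/
theorem two_sq (N x y E : ℤ) (hN : 4 ≤ N) (hx : 1 ≤ x) (hxy : x ≤ y) (hE : E = N * (N - 1) - x * y)
    (h : E * (N + x + 1) * (N + y + 1) = x * (N + x + 1) + y * (N + y + 1) + 6) : False := by
  have hE1 : 1 ≤ E := by
    by_contra h1
    have : E * (N + x + 1) * (N + y + 1) ≤ 0 := by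
      rw [mul_assoc]
      exact mul_nonpos_of_nonpos_of_nonneg (by omega) (mul_nonneg (by omega) (by omega))
    nlinarith
  have hxN : x < N := by nlinarith
  have hf : (E * (N + x + 1) - y) * (E * (N + y + 1) - x) = N * (N - 1) + 5 * E := by
    linear_combination E * h + hE
  have h2 : 0 < E * (N + y + 1) - x := by nlinarith
  have h1 : 0 < E * (N + x + 1) - y := by
    by_contra h1
    have : (E * (N + x + 1) - y) * (E * (N + y + 1) - x) ≤ 0 :=
      mul_nonpos_of_nonpos_of_nonneg (by omega) h2.le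
    nlinarith
  have h3 : E * (N + y + 1) - x ≤ N * (N - 1) + 5 * E := by nlinarith
  obtain ⟨j, hj⟩ : ∃ j, j = E * (N + 1) + N - 1 - x - y := ⟨_, rfl⟩
  have h4 : j * (2 * N + x + y) = E ^ 2 + E * (N + 1) + 6 := by
    rw [hj]; linear_combination h - (E + 2) * hE
  have h5 : 1 ≤ j := by
    by_contra h5
    have : j * (2 * N + x + y) ≤ 0 := mul_nonpos_of_nonpos_of_nonneg (by omega) (by omega)
    nlinarith
  exact two_end N x y E j hN hx hxy hE1 hxN hE h3 hj h4 h5 (two_small N x y E hN · hx hxy hxN hE hE1 h)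

/-- Two odd primes, multiplier two. -/
theorem two_main (N x y s t : ℤ) (hN : 4 ≤ N) (hx : 1 ≤ x) (hxy : x ≤ y)
    (hs : s = N + x + 1 ∨ (N + x) ^ 3 ≤ s) (ht : t = N + y + 1 ∨ (N + y) ^ 3 ≤ t)
    (h : (N * (N - 1) - x * y) * s * t = x * s + y * t + 6) : False := by
  obtain ⟨E, hE⟩ : ∃ E, E = N * (N - 1) - x * y := ⟨_, rfl⟩
  rw [← hE] at h
  have c1 : ∀ z : ℤ, 1 ≤ z → N + z + 1 ≤ (N + z) ^ 3 ∧ N ^ 3 ≤ (N + z) ^ 3 := fun z hz =>
    ⟨by nlinarith [sq_nonneg (N + z), mul_pos (by omega : 0 < N + z) (by omega : 0 < N + z)],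
      pow_le_pow_left₀ (by omega) (by omega) 3⟩
  have hs1 : N + x + 1 ≤ s := by rcases hs with h1 | h1; omega; linarith [(c1 x hx).1]
  have ht1 : N + y + 1 ≤ t := by rcases ht with h1 | h1; omega; linarith [(c1 y (by omega)).1]
  have hE1 : 1 ≤ E := by
    by_contra h1
    have : E * s * t ≤ 0 := by
      rw [mul_assoc]
      exact mul_nonpos_of_nonpos_of_nonneg (by omega) (mul_nonneg (by omega) (by omega))
    nlinarith
  have hf : (E * s - y) * (E * t - x) = N * (N - 1) + 5 * E := by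
    linear_combination E * h + hE
  have h2 : 0 < E * t - x := by nlinarith
  have h1 : 0 < E * s - y := by
    by_contra h1
    have : (E * s - y) * (E * t - x) ≤ 0 := mul_nonpos_of_nonpos_of_nonneg (by omega) h2.le
    nlinarith
  have hy : y ≤ N * (N - 1) := by nlinarith
  have h3 : E * (N ^ 3 - 5) > 2 * (N * (N - 1)) := by
    have h4 : N ^ 3 - 5 > 2 * (N * (N - 1)) := by nlinarith [sq_nonneg N]
    have h5 : 0 ≤ N * (N - 1) := mul_nonneg (by omega) (by omega)
    nlinarith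
  rcases hs with rfl | hs
  · rcases ht with rfl | ht
    · exact two_sq N x y E hN hx hxy hE h
    · have h4 : E * N ^ 3 ≤ E * t := mul_le_mul_of_nonneg_left ((c1 y (by omega)).2.trans ht) (by omega)
      nlinarith
  · have h4 : E * N ^ 3 ≤ E * s := mul_le_mul_of_nonneg_left ((c1 x hx).2.trans hs) (by omega)
    nlinarith

/-- Multiplier three. -/
theorem three_aux (m M r t : ℤ) (hm : 2 ≤ m) (hM : m ≤ M) (hr : 5 ≤ r)
    (ht : r ^ 3 + r ^ 2 + r + 1 ≤ t) (h : t * (m * M - (m + M - 1) * r) = m + M + 9) : False := by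
  obtain ⟨d, hd⟩ : ∃ d, d = m * M - (m + M - 1) * r := ⟨_, rfl⟩
  rw [← hd] at h
  have ht0 : 156 ≤ t := by nlinarith [sq_nonneg r]
  have hd1 : 1 ≤ d := by
    by_contra h1
    have : t * d ≤ 0 := mul_nonpos_of_nonneg_of_nonpos (by omega) (by omega)
    omega
  have h1 : r ≤ m - 1 := by
    by_contra h1
    have : m ≤ r := by omega
    nlinarith
  have h2 : m ≤ 2 * r := by
    by_contra h2
    have h3 : M ≤ d := by nlinarith
    nlinarith
  have h3 : M ≤ (m - 1) ^ 2 + d := by nlinarith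
  have h4 : (m - 1) ^ 2 ≤ 4 * r ^ 2 := by nlinarith
  have h5 : (t - 1) * d ≤ 4 * r ^ 2 + 2 * r + 9 := by nlinarith
  have h6 : t - 1 ≤ (t - 1) * d := by nlinarith
  nlinarith [sq_nonneg r]

theorem three_main (X Y r t : ℤ) (hX : 2 ≤ X) (hY : 2 ≤ Y) (hr : 5 ≤ r)
    (ht : r ^ 3 + r ^ 2 + r + 1 ≤ t) (h : t * (X * Y - (X + Y - 1) * r) = X + Y + 9) : False := by
  rcases le_total X Y with h1 | h1
  · exact three_aux X Y r t hX h1 hr ht h
  · exact three_aux Y X r t hY h1 hr ht (by linear_combination h)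

end Pool.Agent.P.MP_026e5e_nt
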