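import Pool.Agent.P.MP_026e5e_nt.Arith

/-! The equation `σ n = k n + 5` for three prime powers, in terms of the sums
`s = 1 + p + ... + p ^ (a - 1)`, so that `σ (p ^ a) = p s + 1` and `p ^ a = (p - 1) s + 1`. -/

namespace Pool.Agent.P.MP_026e5e_nt

/-- The possible values of `s` for an even exponent. -/
def Sh (p s : ℤ) : Prop := s = 0 ∨ s = p + 1 ∨ p ^ 3 + p ^ 2 + p + 1 ≤ s

theorem ub (m : ℤ) {p s : ℤ} (hm : m ≤ p) (hs : 0 ≤ s) :
    (m - 1) * (p * s + 1) ≤ m * ((p - 1) * s + 1) := by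
  nlinarith [mul_nonneg hs (sub_nonneg.2 hm)]

theorem prod3 {a b c a' b' c' : ℤ} (h1 : a ≤ a') (h2 : b ≤ b') (h3 : c ≤ c') (ha : 0 ≤ a)
    (hb : 0 ≤ b) (hc : 0 ≤ c) : a * b * c ≤ a' * b' * c' :=
  mul_le_mul (mul_le_mul h1 h2 hb (ha.trans h1)) h3 hc (mul_nonneg (ha.trans h1) (hb.trans h2))

/-- An upper bound for the abundancy contradicts the equation. -/
theorem kill_up {U V W P Q R k a b c a' b' c' : ℤ} (h : U * V * W = k * (P * Q * R) + 5)
    (h1 : a * U ≤ a' * P) (h2 : b * V ≤ b' * Q) (h3 : c * W ≤ c' * R) (hU : 0 ≤ U) (hV : 0 ≤ V)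
    (hW : 0 ≤ W) (hn : 0 ≤ P * Q * R) (ha : 0 < a) (hb : 0 < b) (hc : 0 < c)
    (hk : a' * b' * c' ≤ a * b * c * k) : False := by
  have h4 := prod3 h1 h2 h3 (by positivity) (by positivity) (by positivity)
  have h5 : a * U * (b * V) * (c * W) = a * b * c * k * (P * Q * R) + 5 * (a * b * c) := by
    linear_combination a * b * c * h
  have h6 := mul_le_mul_of_nonneg_right hk hn
  have h7 : 0 < a * b * c := by positivity
  linarith

/-- A lower bound for the abundancy contradicts the equation. -/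
theorem kill_low {U V W P Q R k a b c a' b' c' n : ℤ} (h : U * V * W = k * (P * Q * R) + 5)
    (h1 : a' * P ≤ a * U) (h2 : b' * Q ≤ b * V) (h3 : c' * R ≤ c * W) (hP : 0 ≤ P) (hQ : 0 ≤ Q)
    (hR : 0 ≤ R) (hn : n ≤ P * Q * R) (ha : 0 < a') (hb : 0 < b') (hc : 0 < c')
    (hk : 0 ≤ a' * b' * c' - a * b * c * k)
    (hk' : 5 * (a * b * c) < (a' * b' * c' - a * b * c * k) * n) : False := by
  have h4 := prod3 h1 h2 h3 (by positivity) (by positivity) (by positivity)
  have h5 : a * U * (b * V) * (c * W) = a * b * c * k * (P * Q * R) + 5 * (a * b * c) := by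
    linear_combination a * b * c * h
  have h6 := mul_le_mul_of_nonneg_left hn hk
  linarith

theorem Sh.ge {p s : ℤ} (h : Sh p s) (hp : 0 ≤ p) (h0 : s ≠ 0) : p + 1 ≤ s := by
  rcases h with h | h | h
  · exact absurd h h0
  · exact h.ge
  · nlinarith [sq_nonneg p, pow_nonneg hp 3]

theorem odd_end {r s t u : ℤ} (hr : 7 ≤ r) (hr' : r ≤ 13) (hro : r % 2 = 1) (hs : Sh 3 s)
    (ht : Sh 5 t) (hu : Sh r u) (hs0 : 0 ≤ s) (ht0 : 0 ≤ t) (hu0 : 0 ≤ u)
    (h : (3 * s + 1) * (5 * t + 1) * (r * u + 1) =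
      2 * (((3 - 1) * s + 1) * ((5 - 1) * t + 1) * ((r - 1) * u + 1)) + 5) : False := by
  have hru : 0 ≤ r * u := by positivity
  have hru' : 0 ≤ (r - 1) * u := mul_nonneg (by omega) hu0
  have hn : 0 ≤ ((3 - 1) * s + 1) * ((5 - 1) * t + 1) * ((r - 1) * u + 1) := by positivity
  by_cases s0 : s = 0
  · exact kill_up (a := 1) (a' := 1) h (by omega) (ub 5 le_rfl ht0) (ub 7 hr hu0) (by omega)
      (by omega) (by omega) hn (by omega) (by omega) (by omega) (by omega)
  by_cases t0 : t = 0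
  · exact kill_up (b := 1) (b' := 1) h (ub 3 le_rfl hs0) (by omega) (ub 7 hr hu0) (by omega)
      (by omega) (by omega) hn (by omega) (by omega) (by omega) (by omega)
  by_cases u0 : u = 0
  · exact kill_up (c := 1) (c' := 1) h (ub 3 le_rfl hs0) (ub 5 le_rfl ht0) (by simp [u0])
      (by omega) (by omega) (by omega) hn (by omega) (by omega) (by omega) (by omega)
  have t1 := ht.ge (by omega) t0
  have u1 := hu.ge (by omega) u0
  have s1 := hs.ge (by omega) s0
  have hR : 49 ≤ (r - 1) * u + 1 := by nlinarith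
  have hn' : 9 * 25 * 49 ≤ ((3 - 1) * s + 1) * ((5 - 1) * t + 1) * ((r - 1) * u + 1) :=
    prod3 (by omega) (by omega) hR (by omega) (by omega) (by omega)
  rcases hs with hs | hs | hs
  · exact s0 hs
  · rcases le_or_gt 11 r with h1 | h1
    · exact kill_up (a := 9) (a' := 13) h (by omega) (ub 5 le_rfl ht0) (ub 11 h1 hu0) (by omega)
        (by omega) (by omega) hn (by omega) (by omega) (by omega) (by omega)
    · refine kill_low (a := 9) (a' := 13) (b := 25) (b' := 31) (c := 81) (c' := 91) h (by omega)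
        (by omega) ?_ (by omega) (by omega) (by omega) hn' (by omega) (by omega) (by omega)
        (by omega) (by omega)
      have h2 : r = 7 ∨ r = 9 := by omega
      rcases h2 with rfl | rfl <;> omega
  · refine kill_low (a := 81) (a' := 121) (b := 25) (b' := 31) (c := 169) (c' := 183) h (by omega)
      (by omega) ?_ (by omega) (by omega) (by omega) hn' (by omega) (by omega) (by omega)
      (by omega) (by omega)
    have h2 : r = 7 ∨ r = 9 ∨ r = 11 ∨ r = 13 := by omega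
    rcases h2 with rfl | rfl | rfl | rfl <;> omega

theorem odd3 {U V W : ℤ} (h : Odd (U * V * W)) : Odd U ∧ Odd V ∧ Odd W := by
  simpa [Int.odd_mul, and_assoc] using h

theorem odd_core {p q r s t u k : ℤ} (hp : 3 ≤ p) (hpq : p < q) (hqr : q < r) (hpo : p % 2 = 1)
    (hqo : q % 2 = 1) (hro : r % 2 = 1) (hr15 : r ≠ 15) (hs0 : 0 ≤ s) (ht0 : 0 ≤ t) (hu0 : 0 ≤ u)
    (hs : Odd (p * s + 1) → Sh p s) (ht : Odd (q * t + 1) → Sh q t)
    (hu : Odd (r * u + 1) → Sh r u) (hk : 2 ≤ k)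
    (h : (p * s + 1) * (q * t + 1) * (r * u + 1) =
      k * (((p - 1) * s + 1) * ((q - 1) * t + 1) * ((r - 1) * u + 1)) + 5) : False := by
  have a1 : 0 ≤ p * s := mul_nonneg (by omega) hs0
  have a2 : 0 ≤ q * t := mul_nonneg (by omega) ht0
  have a3 : 0 ≤ r * u := mul_nonneg (by omega) hu0
  have b1 : 0 ≤ (p - 1) * s := mul_nonneg (by omega) hs0
  have b2 : 0 ≤ (q - 1) * t := mul_nonneg (by omega) ht0
  have b3 : 0 ≤ (r - 1) * u := mul_nonneg (by omega) hu0
  have hn : 0 ≤ ((p - 1) * s + 1) * ((q - 1) * t + 1) * ((r - 1) * u + 1) := by positivity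
  have up : ∀ a b c : ℤ, 2 ≤ a → 2 ≤ b → 2 ≤ c → a ≤ p → b ≤ q → c ≤ r →
      a * b * c ≤ (a - 1) * (b - 1) * (c - 1) * k → False := fun a b c ha hb hc h1 h2 h3 h4 =>
    kill_up h (ub a h1 hs0) (ub b h2 ht0) (ub c h3 hu0) (by omega) (by omega) (by omega) hn
      (by omega) (by omega) (by omega) h4
  have k2 : k = 2 := by
    by_contra h1
    exact up 3 5 7 (by omega) (by omega) (by omega) hp (by omega) (by omega) (by omega)
  have p3 : p = 3 := by
    by_contra h1
    exact up 5 7 9 (by omega) (by omega) (by omega) (by omega) (by omega) (by omega) (by omega)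
  have q5 : q = 5 := by
    by_contra h1
    exact up 3 7 9 (by omega) (by omega) (by omega) (by omega) (by omega) (by omega) (by omega)
  have r13 : r ≤ 13 := by
    by_contra h1
    exact up 3 5 17 (by omega) (by omega) (by omega) (by omega) (by omega) (by omega) (by omega)
  subst k2 p3 q5
  obtain ⟨o1, o2, o3⟩ := odd3 (U := 3 * s + 1) (V := 5 * t + 1) (W := r * u + 1)
    ⟨((3 - 1) * s + 1) * ((5 - 1) * t + 1) * ((r - 1) * u + 1) + 2, by rw [h]; ring⟩
  exact odd_end (by omega) r13 hro (hs o1) (ht o2) (hu o3) hs0 ht0 hu0 h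

theorem six {N q t : ℤ} (hq : 3 ≤ q) (hqo : q % 2 = 1) (hN : N % 4 = 0) (ht : Sh q t)
    (h : (N - q) * t = 6) : False := by
  have t0 : t ≠ 0 := by rintro rfl; omega
  have t1 := ht.ge (by omega) t0
  have h1 : 1 ≤ N - q := by
    by_contra h1
    have : (N - q) * t ≤ 0 := mul_nonpos_of_nonpos_of_nonneg (by omega) (by omega)
    omega
  have h2 : t ≤ 6 := by nlinarith
  have h3 : q = 3 ∨ q = 5 := by omega
  rcases ht with h4 | h4 | h4
  · exact t0 h4
  · subst h4
    rcases h3 with rfl | rfl <;> omega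
  · rcases h3 with rfl | rfl <;> omega

theorem even_two {q r s t u : ℤ} (hq : 3 ≤ q) (hqr : q < r) (hqo : q % 2 = 1) (hro : r % 2 = 1)
    (hs : 1 ≤ s) (hso : s % 2 = 1) (ht : Sh q t) (hu : Sh r u)
    (h : (2 * s + 1) * (q * t + 1) * (r * u + 1) =
      2 * (((2 - 1) * s + 1) * ((q - 1) * t + 1) * ((r - 1) * u + 1)) + 5) : False := by
  obtain ⟨N, hN⟩ : ∃ N, N = 2 * s + 2 := ⟨_, rfl⟩
  have h1 : (N - 1) * (q * t + 1) * (r * u + 1) = N * ((q - 1) * t + 1) * ((r - 1) * u + 1) + 5 := by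
    rw [hN]; linear_combination h
  by_cases t0 : t = 0
  · subst t0
    exact six (N := N) (by omega) hro (by omega) hu (by linear_combination h1)
  by_cases u0 : u = 0
  · subst u0
    exact six (N := N) hq hqo (by omega) ht (by linear_combination h1)
  have t1 := ht.ge (by omega) t0
  have u1 := hu.ge (by omega) u0
  rcases lt_or_ge q N with h2 | h2
  · have a1 : t ≤ (N - q) * t := by nlinarith
    have a2 : N * ((q - 1) * t + 1) + 3 ≤ (N - 1) * (q * t + 1) := by linarith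
    have a3 : 2 ≤ r * u + 1 := by nlinarith
    have a4 := mul_le_mul_of_nonneg_right a2 (by omega : 0 ≤ r * u + 1)
    have a5 : 0 ≤ N * ((q - 1) * t + 1) * u :=
      mul_nonneg (mul_nonneg (by omega) (by nlinarith)) (by omega)
    linarith
  · refine two_main N (q - N) (r - N) t u (by omega) (by omega) (by omega) ?_ ?_
      (by linear_combination h1)
    · rcases ht with h3 | h3 | h3
      · exact absurd h3 t0
      · left; omega
      · right; rw [add_sub_cancel]; nlinarith [sq_nonneg q]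
    · rcases hu with h3 | h3 | h3
      · exact absurd h3 u0
      · left; omega
      · right; rw [add_sub_cancel]; nlinarith [sq_nonneg r]

theorem even_three {r s t u : ℤ} (hr : 5 ≤ r) (hs : 1 ≤ s) (hs3 : (2 * s + 1) % 3 ≠ 2)
    (ht : 0 ≤ t) (hu : Sh r u)
    (h : (2 * s + 1) * (3 * t + 1) * (r * u + 1) =
      3 * (((2 - 1) * s + 1) * ((3 - 1) * t + 1) * ((r - 1) * u + 1)) + 5) : False := by
  have h1 : u * ((2 * s + 2) * (6 * t + 3) - (2 * s + 2 + (6 * t + 3) - 1) * r) =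
      2 * s + 2 + (6 * t + 3) + 9 := by linear_combination 2 * h
  rcases hu with rfl | rfl | hu
  · omega
  · have a1 : (r * (r + 1) + 1) % 3 ≠ 2 := by
      have : r % 3 = 0 ∨ r % 3 = 1 ∨ r % 3 = 2 := by omega
      rcases this with e | e | e <;> simp [Int.add_emod, Int.mul_emod, e]
    have a2 : (3 * t + 1) % 3 = 1 := by omega
    have a3 : ((2 * s + 1) * (3 * t + 1) * (r * (r + 1) + 1)) % 3 = 2 := by omega
    have a4 : (2 * s + 1) % 3 = 0 ∨ (2 * s + 1) % 3 = 1 := by omega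
    have a5 : (r * (r + 1) + 1) % 3 = 0 ∨ (r * (r + 1) + 1) % 3 = 1 := by omega
    rw [Int.mul_emod, Int.mul_emod (2 * s + 1), a2] at a3
    rcases a4 with e | e <;> rcases a5 with e' | e' <;> simp [e, e'] at a3
  · exact three_main _ _ r u (by omega) (by omega) hr hu h1

theorem even_core {q r s t u k : ℤ} (hq : 3 ≤ q) (hqr : q < r) (hqo : q % 2 = 1) (hro : r % 2 = 1)
    (hs : s = 0 ∨ (1 ≤ s ∧ s % 2 = 1 ∧ (2 * s + 1) % 3 ≠ 2)) (ht0 : 0 ≤ t) (hu0 : 0 ≤ u)
    (ht : Odd (q * t + 1) → Sh q t) (hu : Odd (r * u + 1) → Sh r u) (hk : 2 ≤ k)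
    (h : (2 * s + 1) * (q * t + 1) * (r * u + 1) =
      k * (((2 - 1) * s + 1) * ((q - 1) * t + 1) * ((r - 1) * u + 1)) + 5) : False := by
  have hs0 : 0 ≤ s := by omega
  have a2 : 0 ≤ q * t := mul_nonneg (by omega) ht0
  have a3 : 0 ≤ r * u := mul_nonneg (by omega) hu0
  have b2 : 0 ≤ (q - 1) * t := mul_nonneg (by omega) ht0
  have b3 : 0 ≤ (r - 1) * u := mul_nonneg (by omega) hu0
  have hn : 0 ≤ ((2 - 1) * s + 1) * ((q - 1) * t + 1) * ((r - 1) * u + 1) := by positivity
  rcases hs with hs | ⟨hs, hso, hs3⟩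
  · exact kill_up (a := 1) (a' := 1) h (by omega) (ub 3 hq ht0) (ub 5 (by omega) hu0) (by omega)
      (by omega) (by omega) hn (by omega) (by omega) (by omega) (by omega)
  have up : ∀ b c : ℤ, 2 ≤ b → 2 ≤ c → b ≤ q → c ≤ r →
      2 * b * c ≤ (2 - 1) * (b - 1) * (c - 1) * k → False := fun b c hb hc h2 h3 h4 =>
    kill_up h (ub 2 le_rfl hs0) (ub b h2 ht0) (ub c h3 hu0) (by omega) (by omega) (by omega) hn
      (by omega) (by omega) (by omega) h4
  obtain ⟨m, hm⟩ : ∃ m, s = 2 * m + 1 := ⟨s / 2, by omega⟩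
  obtain ⟨-, o2, o3⟩ := odd3 (h ▸ ⟨k * ((m + 1) * ((q - 1) * t + 1) * ((r - 1) * u + 1)) + 2, by
    rw [hm]; ring⟩ : Odd ((2 * s + 1) * (q * t + 1) * (r * u + 1)))
  have k3 : k ≤ 3 := by
    by_contra h1
    exact up 3 5 (by omega) (by omega) hq (by omega) (by omega)
  have hk' : k = 2 ∨ k = 3 := by omega
  rcases hk' with rfl | rfl
  · exact even_two hq hqr hqo hro hs hso (ht o2) (hu o3) h
  · have q3 : q = 3 := by
      by_contra h1
      exact up 5 7 (by omega) (by omega) (by omega) (by omega) (by omega)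
    subst q3
    exact even_three (by omega) hs hs3 ht0 (hu o3) h

end Pool.Agent.P.MP_026e5e_nt
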