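import Pool.Agent.P.MP_026e5e_nt.Core

/-! Solutions of `σ n = k n + 5` have at least four prime factors. -/

namespace Pool.Agent.P.MP_026e5e_nt

open Finset ArithmeticFunction
open scoped ArithmeticFunction.sigma

theorem comp {p : ℕ} (hp : p.Prime) (a : ℕ) : ∃ s : ℤ, ((σ 1 (p ^ a) : ℕ) : ℤ) = p * s + 1 ∧
    (p : ℤ) ^ a = (p - 1) * s + 1 ∧ 0 ≤ s ∧ ((p : ℤ) % 2 = 1 → Odd (p * s + 1) → Sh p s) ∧
    (p = 2 → s = 0 ∨ (1 ≤ s ∧ s % 2 = 1 ∧ (2 * s + 1) % 3 ≠ 2)) := by
  have h0 : ∀ a, (0 : ℤ) ≤ ∑ i ∈ range a, (p : ℤ) ^ i := fun a => sum_nonneg fun i _ => by positivity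
  have h1 : (p : ℤ) ^ a = (p - 1) * ∑ i ∈ range a, (p : ℤ) ^ i + 1 := by
    rw [mul_geom_sum]; ring
  refine ⟨∑ i ∈ range a, (p : ℤ) ^ i, ?_, h1, h0 a, fun ho h => ?_, ?_⟩
  · rw [sigma_one_apply_prime_pow hp, ← geom_sum_succ]; push_cast; rfl
  · obtain ⟨m, hm⟩ : ∃ m : ℤ, (p : ℤ) = 2 * m + 1 := ⟨p / 2, by omega⟩
    rcases lt_or_ge a 4 with h4 | h4
    · interval_cases a
      · exact Or.inl rfl
      · exact absurd h (Int.not_odd_iff_even.2 ⟨m + 1, by simp [hm]; ring⟩)
      · exact Or.inr (Or.inl (by simp [sum_range_succ, add_comm]))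
      · exact absurd h (Int.not_odd_iff_even.2 ⟨(m + 1) * (p ^ 2 + 1), by
          simp only [sum_range_succ, range_zero, sum_empty, hm]; ring⟩)
    · refine Or.inr (Or.inr (le_trans ?_ (sum_le_sum_of_subset_of_nonneg (range_mono h4)
        fun i _ _ => by positivity)))
      simp only [sum_range_succ, range_zero, sum_empty]
      linarith
  · rintro rfl
    rcases a with _ | a
    · exact Or.inl rfl
    · have h2 := h0 a
      have h3 : ¬(3 : ℤ) ∣ 2 ^ (a + 1) := fun h => by
        have := Int.prime_three.dvd_of_dvd_pow h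
        omega
      rw [geom_sum_succ] at h1 ⊢
      push_cast at h1 h2 ⊢
      right
      omega

theorem sorted3 {u : Finset ℕ} (h : u.card = 3) : ∃ p q r, p < q ∧ q < r ∧ u = {p, q, r} := by
  obtain ⟨x, y, z, h1, h2, h3, rfl⟩ := card_eq_three.1 h
  have e : ∀ p q r : ℕ, (∀ w, w = x ∨ w = y ∨ w = z ↔ w = p ∨ w = q ∨ w = r) →
      ({x, y, z} : Finset ℕ) = {p, q, r} := fun p q r h => by ext w; simpa using h w
  rcases lt_or_gt_of_ne h1 with a | a <;> rcases lt_or_gt_of_ne h2 with b | b <;>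
    rcases lt_or_gt_of_ne h3 with c | c
  · exact ⟨x, y, z, a, c, rfl⟩
  · exact ⟨x, z, y, b, c, e _ _ _ fun w => by omega⟩
  · omega
  · exact ⟨z, x, y, b, a, e _ _ _ fun w => by omega⟩
  · exact ⟨y, x, z, a, b, e _ _ _ fun w => by omega⟩
  · omega
  · exact ⟨y, z, x, c, b, e _ _ _ fun w => by omega⟩
  · exact ⟨z, y, x, c, a, e _ _ _ fun w => by omega⟩

theorem decomp {n : ℕ} (hn : n ≠ 0) (h : n.primeFactors.card ≤ 3) : ∃ p q r a b c : ℕ,
    p.Prime ∧ q.Prime ∧ r.Prime ∧ p < q ∧ q < r ∧ n = p ^ a * q ^ b * r ^ c := by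
  obtain ⟨u, h1, h2, h3⟩ := exists_subsuperset_card_eq
    (subset_union_left (s₁ := n.primeFactors) (s₂ := {2, 3, 5})) h
    (le_trans (by decide) (card_le_card subset_union_right))
  have h4 : ∀ w ∈ u, w.Prime := fun w hw => by
    rcases mem_union.1 (h2 hw) with h5 | h5
    · exact Nat.prime_of_mem_primeFactors h5
    · simp only [mem_insert, mem_singleton] at h5
      rcases h5 with rfl | rfl | rfl <;> norm_num
  obtain ⟨p, q, r, a, b, rfl⟩ := sorted3 h3
  refine ⟨p, q, r, n.factorization p, n.factorization q, n.factorization r, h4 p (by simp),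
    h4 q (by simp), h4 r (by simp), a, b, ?_⟩
  conv_lhs => rw [← Nat.prod_factorization_pow_eq_self hn]
  rw [Finsupp.prod_of_support_subset _ h1 _ (fun _ _ => pow_zero _),
    prod_insert (by simp; omega), prod_pair b.ne, mul_assoc]

theorem small {n k : ℕ} (hk : k ≤ 1) (h : σ 1 n = k * n + 5) : False := by
  have key : ∀ m ≤ 16, ∑ d ∈ m.divisors, d ≠ 5 ∧ ∑ d ∈ m.divisors, d ≠ m + 5 := by decide +kernel
  rw [sigma_one_apply] at h
  have h16 : n ≤ 16 := by
    by_contra h1
    have h2 := Nat.sum_divisors_eq_sum_properDivisors_add_self (n := n)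
    have h3 : k * n ≤ n := by nlinarith
    by_cases hp : n.Prime
    · rw [hp.sum_divisors] at h
      rcases Nat.le_one_iff_eq_zero_or_eq_one.1 hk with rfl | rfl <;> omega
    · have h4 := Nat.minFac_le_div (by omega : 0 < n) hp
      have h5 := Nat.mul_div_cancel' n.minFac_dvd
      have h6 := (Nat.minFac_prime (by omega : n ≠ 1)).two_le
      have h7 : n / n.minFac < n := Nat.div_lt_self (by omega) h6
      have h8 : ({1, n / n.minFac} : Finset ℕ) ⊆ n.properDivisors := by
        intro w hw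
        simp only [mem_insert, mem_singleton] at hw
        rcases hw with rfl | rfl
        · exact Nat.mem_properDivisors.2 ⟨one_dvd _, by omega⟩
        · exact Nat.mem_properDivisors.2 ⟨Nat.div_dvd_of_dvd n.minFac_dvd, h7⟩
      have h9 := sum_le_sum_of_subset (f := fun d => d) h8
      rw [sum_pair (by omega)] at h9
      have h10 : n / n.minFac ≤ 4 := by omega
      nlinarith
  have := key n h16
  rcases Nat.le_one_iff_eq_zero_or_eq_one.1 hk with rfl | rfl <;> omega

theorem main {n k : ℕ} (h : σ 1 n = k * n + 5) : 4 ≤ n.primeFactors.card := by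
  by_contra h1
  have hk : 2 ≤ k := by_contra fun h2 => small (by omega) h
  have hn : n ≠ 0 := by rintro rfl; simp at h
  obtain ⟨p, q, r, a, b, c, hp, hq, hr, hpq, hqr, rfl⟩ := decomp hn (by omega)
  have c1 : (p ^ a).Coprime (q ^ b) := Nat.coprime_pow_primes a b hp hq hpq.ne
  have c2 : (p ^ a * q ^ b).Coprime (r ^ c) := Nat.Coprime.mul_left
    (Nat.coprime_pow_primes a c hp hr (hpq.trans hqr).ne) (Nat.coprime_pow_primes b c hq hr hqr.ne)
  rw [isMultiplicative_sigma.map_mul_of_coprime c2, isMultiplicative_sigma.map_mul_of_coprime c1]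
    at h
  obtain ⟨s, s1, s2, s3, s4, s5⟩ := comp hp a
  obtain ⟨t, t1, t2, t3, t4, -⟩ := comp hq b
  obtain ⟨u, u1, u2, u3, u4, -⟩ := comp hr c
  have h2 := congrArg (Nat.cast : ℕ → ℤ) h
  push_cast at h2
  rw [s1, t1, u1, s2, t2, u2] at h2
  have p2 := hp.two_le
  have qo := hq.eq_two_or_odd
  have ro := hr.eq_two_or_odd
  have r15 : r ≠ 15 := by rintro rfl; norm_num at hr
  rcases hp.eq_two_or_odd with rfl | po
  · exact even_core (by omega) (by omega) (by omega) (by omega) (s5 rfl) t3 u3 (t4 (by omega))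
      (u4 (by omega)) (by omega) h2
  · exact odd_core (by omega) (by omega) (by omega) (by omega) (by omega) (by omega) (by omega)
      s3 t3 u3 (s4 (by omega)) (t4 (by omega)) (u4 (by omega)) (by omega) h2

end Pool.Agent.P.MP_026e5e_nt
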